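import Pool.Agent.L5helper86.PalR.Law2

/-!
# MP_540de1_nt: palindromes and almost every system of residue classes

The palindromic primes are the palindromes which avoid the residue class `0` modulo all primes
`p ≤ √n`. We prove the law which is expected for their number, with the predicted constant, for every
system of residue classes modulo the primes `p ≤ n^o(1)` (for example the classes `0`) and almost every
choice of one residue class `a_p` modulo each of the larger primes.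
-/

set_option autoImplicit false

namespace Pool.Agent.Results.MP_540de1_nt.AlmostEverySystem

open Finset MeasureTheory ProbabilityTheory Filter Topology
open Pool.Agent.L5helper2.RS (Ix pp pp_two RSys)
open Pool.Agent.L5helper86.PalR
open Pool.Agent.H861R2.Pal (pvl palin palin_eq pvl_inj)

lemma cop_iff {l L : ℕ} (hL : 1 ≤ L) (hl1 : 1 ≤ l) (hl9 : l ≤ 9) (m : Fin L → Fin 10) :
    (pvl l L m).Coprime 10 ↔ l ∈ ({1, 3, 7, 9} : Finset ℕ) := by
  obtain ⟨k, rfl⟩ : ∃ k, L = k + 1 := ⟨L - 1, by omega⟩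
  rw [pvl_split l (k + 1) k le_rfl, Ico_self, sum_empty, Nat.add_sub_cancel_left, pow_one, add_zero]
  have h4 : 10 ^ (2 * (k + 1)) = 10 * 10 ^ (2 * k + 1) := by rw [← pow_succ']; congr 1
  have h5 : l * (10 ^ (2 * (k + 1)) + 1) + 10 * Bk k (dg m) = l + (l * 10 ^ (2 * k + 1) + Bk k (dg m)) * 10 := by
    rw [h4]
    ring
  rw [h5]
  have h6 : (l + (l * 10 ^ (2 * k + 1) + Bk k (dg m)) * 10).Coprime 10 ↔ l.Coprime 10 := by
    rw [Nat.coprime_add_mul_right_left]
  rw [h6]
  interval_cases l <;> decide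

open Classical in
theorem result (Ω : Type) [MeasurableSpace Ω] (P : Measure Ω) [IsProbabilityMeasure P] (a : ℕ → Ω → ℕ)
    (hmeas : ∀ p, Measurable (a p))
    (hind : iIndepFun (fun p : Nat.Primes => a p) P)
    (hunif : ∀ p r : ℕ, p.Prime → r < p → P.real {ω | a p ω = r} = 1 / p)
    (b z : ℕ → ℕ) (hz : Tendsto (fun L : ℕ => Real.log (z L) / L) atTop (𝓝 0)) :
    ∀ᵐ ω ∂P, ∀ c : ℝ, 0 < c → Tendsto (fun L : ℕ =>
      (#{n ∈ Ico (10 ^ (2 * L)) (10 ^ (2 * L + 1)) | (Nat.digits 10 n).reverse = Nat.digits 10 n ∧ n.Coprime 10 ∧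
        (∀ p : ℕ, p.Prime → p ≠ 2 → p ≠ 5 → p ≤ z L → ¬ n ≡ b p [MOD p]) ∧
        ∀ p : ℕ, p.Prime → p ≠ 2 → p ≠ 5 → z L < p → (p : ℝ) ≤ (n : ℝ) ^ c → ¬ n ≡ a p ω [MOD p]} : ℝ) /
          (10 ^ L / L)) atTop
      (𝓝 (5 * Real.exp (-Real.eulerMascheroniConstant) / (c * Real.log 10))) := by
  have h10 : 0 < Real.log 10 := Real.log_pos (by norm_num)
  -- the system of the residues
  obtain ⟨X, hX⟩ : ∃ X : Ix 1 → Ω → ℕ, X = fun j => a (pp j) := ⟨_, rfl⟩
  have hR : RSys P (pp (k := 1)) X := by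
    refine ⟨inferInstance, fun j => by rw [hX]; exact hmeas _, ?_, ?_, pp_two⟩
    · have hinj : Function.Injective (fun j : Ix 1 => (⟨pp j, j.1.2⟩ : Nat.Primes)) := by
        intro i j hij
        have h1 : pp i = pp j := congrArg (fun q : Nat.Primes => (q : ℕ)) hij
        exact pp_inj h1
      have h1 := hind.precomp hinj
      intro s C
      have h2 := h1.measure_inter_preimage_eq_mul s (sets := C) fun i _ => MeasurableSet.of_discrete
      rw [measureReal_def, hX]
      have h3 : P (⋂ j ∈ s, (fun j : Ix 1 => a (pp j)) j ⁻¹' C j) = ∏ j ∈ s, P (a (pp j) ⁻¹' C j) := h2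
      rw [h3, ENNReal.toReal_prod]
      rfl
    · intro j r hr
      rw [hX]
      exact hunif (pp j) r j.1.2 hr
  -- the law for rational exponents and all leading digits
  have hlaw : ∀ᵐ ω ∂P, ∀ c : ℚ, (0 : ℝ) < c → ∀ l ∈ ({1, 3, 7, 9} : Finset ℕ), Tendsto (fun L : ℕ =>
      (#{m ∈ Mb b l L (z L) | Avd X (z L) (zf c (pvl l L m)) ω (pvl l L m)} : ℝ) / (10 ^ L / L)) atTop (𝓝 (kap c)) := by
    rw [ae_all_iff]
    intro c
    by_cases hc : (0 : ℝ) < c
    · have h1 := law1 hR b hz hc (l := 1) (by norm_num) (by norm_num)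
      have h3 := law1 hR b hz hc (l := 3) (by norm_num) (by norm_num)
      have h7 := law1 hR b hz hc (l := 7) (by norm_num) (by norm_num)
      have h9 := law1 hR b hz hc (l := 9) (by norm_num) (by norm_num)
      filter_upwards [h1, h3, h7, h9] with ω w1 w3 w7 w9
      intro _ l hl
      simp only [mem_insert, mem_singleton] at hl
      rcases hl with rfl | rfl | rfl | rfl
      · exact w1
      · exact w3
      · exact w7
      · exact w9
    · exact Eventually.of_forall fun ω h => absurd h hc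
  filter_upwards [hlaw] with ω hω
  -- the counting function
  obtain ⟨F, hF⟩ : ∃ F : ℝ → ℕ → ℝ, F = fun (c : ℝ) (L : ℕ) =>
      (#{n ∈ Ico (10 ^ (2 * L)) (10 ^ (2 * L + 1)) | (Nat.digits 10 n).reverse = Nat.digits 10 n ∧ n.Coprime 10 ∧
        (∀ p : ℕ, p.Prime → p ≠ 2 → p ≠ 5 → p ≤ z L → ¬ n ≡ b p [MOD p]) ∧
        ∀ p : ℕ, p.Prime → p ≠ 2 → p ≠ 5 → z L < p → (p : ℝ) ≤ (n : ℝ) ^ c → ¬ n ≡ a p ω [MOD p]} : ℝ) /
          (10 ^ L / L) := ⟨_, rfl⟩
  have hcount : ∀ c : ℝ, 0 < c → ∀ L : ℕ, 1 ≤ L → F c L = ∑ l ∈ ({1, 3, 7, 9} : Finset ℕ),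
      (#{m ∈ Mb b l L (z L) | Avd X (z L) (zf c (pvl l L m)) ω (pvl l L m)} : ℝ) / (10 ^ L / L) := by
    intro c hc L hL
    rw [hF]
    simp only
    rw [← sum_div]
    congr 1
    rw [← Nat.cast_sum, Nat.cast_inj]
    have e1 : (Ico (10 ^ (2 * L)) (10 ^ (2 * L + 1))).filter (fun n => (Nat.digits 10 n).reverse = Nat.digits 10 n ∧
        n.Coprime 10 ∧ (∀ p : ℕ, p.Prime → p ≠ 2 → p ≠ 5 → p ≤ z L → ¬ n ≡ b p [MOD p]) ∧
        ∀ p : ℕ, p.Prime → p ≠ 2 → p ≠ 5 → z L < p → (p : ℝ) ≤ (n : ℝ) ^ c → ¬ n ≡ a p ω [MOD p]) =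
        (({1, 3, 7, 9} : Finset ℕ).sigma (fun l => (Mb b l L (z L)).filter
          (fun m => Avd X (z L) (zf c (pvl l L m)) ω (pvl l L m)))).image (fun x => pvl x.1 L x.2) := by
      ext n
      rw [mem_filter, mem_Ico, mem_image]
      have hAv : ∀ l (m : Fin L → Fin 10), Avd X (z L) (zf c (pvl l L m)) ω (pvl l L m) ↔
          ∀ p : ℕ, p.Prime → p ≠ 2 → p ≠ 5 → z L < p → (p : ℝ) ≤ ((pvl l L m : ℕ) : ℝ) ^ c →
            ¬ pvl l L m ≡ a p ω [MOD p] := by
        intro l m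
        unfold Avd
        rw [hX]
        have hfl : ∀ p : ℕ, p ≤ zf c (pvl l L m) ↔ (p : ℝ) ≤ ((pvl l L m : ℕ) : ℝ) ^ c := by
          intro p
          unfold zf
          exact Nat.le_floor_iff (by positivity)
        constructor
        · intro h p hp h2 h5 hzp hpc
          exact h (⟨p, hp⟩, 0) hzp (mem_PT.2 ⟨(hfl p).2 hpc, hp, h2, h5⟩)
        · intro h j hj0 hj
          rw [mem_PT] at hj
          exact h (pp j) hj.2.1 hj.2.2.1 hj.2.2.2 hj0 ((hfl _).1 hj.1)
      have hMb : ∀ l (m : Fin L → Fin 10), m ∈ Mb b l L (z L) ↔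
          ∀ p : ℕ, p.Prime → p ≠ 2 → p ≠ 5 → p ≤ z L → ¬ pvl l L m ≡ b p [MOD p] := by
        intro l m
        unfold Mb
        rw [mem_filter]
        constructor
        · rintro ⟨_, h⟩ p hp h2 h5 hpz
          exact h p (mem_PT.2 ⟨hpz, hp, h2, h5⟩)
        · intro h
          refine ⟨mem_univ _, fun p hp => ?_⟩
          rw [mem_PT] at hp
          exact h p hp.2.1 hp.2.2.1 hp.2.2.2 hp.1
      constructor
      · rintro ⟨⟨h1, h2⟩, h3, h4, h5, h5'⟩
        have h6 : n ∈ palin L := by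
          unfold palin
          rw [mem_filter, mem_range]
          exact ⟨h2, h1, h3⟩
        rw [palin_eq L hL, mem_image] at h6
        obtain ⟨⟨l, m⟩, hx, rfl⟩ := h6
        rw [mem_product, mem_Icc] at hx
        refine ⟨⟨l, m⟩, ?_, rfl⟩
        rw [mem_sigma, mem_filter]
        exact ⟨(cop_iff hL hx.1.1 hx.1.2 m).1 h4, (hMb l m).2 h5, (hAv l m).2 h5'⟩
      · rintro ⟨⟨l, m⟩, hx, rfl⟩
        rw [mem_sigma, mem_filter] at hx
        have hl : 1 ≤ l ∧ l ≤ 9 := by
          have h7 := hx.1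
          simp only [mem_insert, mem_singleton] at h7
          omega
        have h6 : pvl l L m ∈ palin L := by
          rw [palin_eq L hL, mem_image]
          exact ⟨(l, m), mem_product.2 ⟨mem_Icc.2 hl, mem_univ _⟩, rfl⟩
        unfold palin at h6
        rw [mem_filter, mem_range] at h6
        exact ⟨⟨h6.2.1, h6.1⟩, h6.2.2, (cop_iff hL hl.1 hl.2 m).2 hx.1, (hMb l m).1 hx.2.1, (hAv l m).1 hx.2.2⟩
    rw [e1, card_image_of_injOn, card_sigma]
    rintro ⟨l, m⟩ hx ⟨l', m'⟩ hy hxy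
    rw [mem_coe, mem_sigma] at hx hy
    have h7 := hx.1
    have h8 := hy.1
    simp only [mem_insert, mem_singleton] at h7 h8
    have h9 := pvl_inj L hL (x₁ := (l, m)) (x₂ := (l', m')) (show l ≤ 9 by omega) (show l' ≤ 9 by omega) hxy
    obtain ⟨h10, h11⟩ := Prod.mk.inj h9
    subst h10
    subst h11
    rfl
  have hrat : ∀ c : ℚ, (0 : ℝ) < c → Tendsto (F c) atTop
      (𝓝 (5 * Real.exp (-Real.eulerMascheroniConstant) / (c * Real.log 10))) := by
    intro c hc
    have h1 : Tendsto (fun L : ℕ => ∑ l ∈ ({1, 3, 7, 9} : Finset ℕ),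
        (#{m ∈ Mb b l L (z L) | Avd X (z L) (zf c (pvl l L m)) ω (pvl l L m)} : ℝ) / (10 ^ L / L)) atTop
        (𝓝 (∑ _l ∈ ({1, 3, 7, 9} : Finset ℕ), kap c)) := tendsto_finset_sum _ fun l hl => hω c hc l hl
    have e2 : ∑ _l ∈ ({1, 3, 7, 9} : Finset ℕ), kap c = 5 * Real.exp (-Real.eulerMascheroniConstant) / (c * Real.log 10) := by
      rw [sum_const]
      have : #({1, 3, 7, 9} : Finset ℕ) = 4 := by decide
      rw [this]
      unfold kap
      rw [nsmul_eq_mul]
      push_cast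
      field_simp
    rw [e2] at h1
    refine h1.congr' ?_
    filter_upwards [eventually_ge_atTop 1] with L hL
    exact (hcount c hc L hL).symm
  -- monotonicity in the exponent
  have hmono : ∀ c c' : ℝ, c ≤ c' → ∀ L : ℕ, F c' L ≤ F c L := by
    intro c c' hcc L
    rw [hF]
    refine div_le_div_of_nonneg_right ?_ (by positivity)
    rw [Nat.cast_le]
    refine card_le_card fun n hn => ?_
    rw [mem_filter, mem_Ico] at hn ⊢
    refine ⟨hn.1, hn.2.1, hn.2.2.1, hn.2.2.2.1, fun p hp h2 h5 hzp hpc => hn.2.2.2.2 p hp h2 h5 hzp (hpc.trans ?_)⟩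
    have h1 : (1 : ℝ) ≤ n := by
      have : 1 ≤ n := (Nat.one_le_pow _ _ (by norm_num)).trans hn.1.1
      exact_mod_cast this
    exact Real.rpow_le_rpow_of_exponent_le h1 hcc
  intro c hc
  obtain ⟨K, hK⟩ : ∃ K : ℝ → ℝ, K = fun c => 5 * Real.exp (-Real.eulerMascheroniConstant) / (c * Real.log 10) := ⟨_, rfl⟩
  have hKc : ContinuousAt K c := by
    rw [hK]
    exact ContinuousAt.div continuousAt_const (continuousAt_id.mul continuousAt_const) (mul_pos hc h10).ne'
  have hgoal : Tendsto (F c) atTop (𝓝 (K c)) := by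
    rw [tendsto_order]
    constructor
    · intro x hx
      obtain ⟨δ, hδ, hd⟩ := Metric.eventually_nhds_iff.1 (hKc.eventually_const_lt hx)
      obtain ⟨q, hq1, hq2⟩ := exists_rat_btwn (show c < c + δ by linarith)
      have h1 : x < K q := hd (by rw [Real.dist_eq, abs_lt]; constructor <;> linarith)
      have h2 := hrat q (hc.trans hq1)
      rw [hK] at h1
      filter_upwards [h2.eventually_const_lt h1] with L hL
      exact hL.trans_le (hmono c q hq1.le L)
    · intro x hx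
      obtain ⟨δ, hδ, hd⟩ := Metric.eventually_nhds_iff.1 (hKc.eventually_lt_const hx)
      obtain ⟨q, hq1, hq2⟩ := exists_rat_btwn (show max 0 (c - δ) < c by
        rw [max_lt_iff]
        constructor <;> linarith)
      rw [max_lt_iff] at hq1
      have h1 : K q < x := hd (by rw [Real.dist_eq, abs_lt]; constructor <;> linarith [hq1.2])
      have h2 := hrat q hq1.1
      rw [hK] at h1
      filter_upwards [h2.eventually_lt_const h1] with L hL
      exact (hmono q c hq2.le L).trans_lt hL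
  rw [hF, hK] at hgoal
  exact hgoal

end Pool.Agent.Results.MP_540de1_nt.AlmostEverySystem
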