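import Mathlib
import Pool.Agent.L5helper11.PE.FamA
import Pool.Agent.L5helper11.PE.Dig

/-!
Decimal palindromes whose digits are taken from arbitrary digit sets (one set for every place) and which have few
prime factors.
-/

set_option autoImplicit false

namespace Pool.Agent.Results.MP_540de1_nt.DigitSets

open Finset Filter Pool.Agent.L5helper11.PE
open Pool.Agent.L5helper11.PD (wt vB vv Ix cf vB_inj XX S21 card_cf)

/-- the palindromes with exactly `2 N + 1` decimal digits, the digit in place `i` taken from `D i`, `i ≤ N` (place `0`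
is the last digit, which is also the first one) -/
def PalSet (N : ℕ) (D : ℕ → Finset ℕ) : Finset ℕ :=
  (range (10 ^ (2 * N + 1))).filter fun n => 10 ^ (2 * N) ≤ n ∧ (Nat.digits 10 n).reverse = Nat.digits 10 n ∧
    ∀ i ≤ N, n / 10 ^ i % 10 ∈ D i

lemma mem_PalSet {N n : ℕ} {D : ℕ → Finset ℕ} : n ∈ PalSet N D ↔ n < 10 ^ (2 * N + 1) ∧ 10 ^ (2 * N) ≤ n ∧
    (Nat.digits 10 n).reverse = Nat.digits 10 n ∧ ∀ i ≤ N, n / 10 ^ i % 10 ∈ D i := by
  unfold PalSet
  rw [mem_filter, mem_range]

lemma PalSet_eq {N : ℕ} {D : ℕ → Finset ℕ} (hD : ∀ i, D i ⊆ range 10) (h0 : D 0 ⊆ {1, 3, 7, 9}) :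
    PalSet N D = (cf D (range (N + 1))).image (vv N) := by
  classical
  ext n
  rw [mem_PalSet, mem_image]
  constructor
  · rintro ⟨h1, h2, h3, h4⟩
    refine ⟨fun i => n / 10 ^ (i : ℕ) % 10, ?_, ?_⟩
    · unfold cf
      rw [Fintype.mem_piFinset]
      intro i
      exact h4 i (by have := mem_range.1 i.2; omega)
    · rw [vv_eq]
      conv_rhs => rw [pal_val h2 h1 h3]
      refine sum_congr rfl fun i hi => ?_
      unfold xt
      rw [dif_pos hi]
  · rintro ⟨m, hm, rfl⟩
    unfold cf at hm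
    rw [Fintype.mem_piFinset] at hm
    have hz : 0 ∈ range (N + 1) := mem_range.2 (by omega)
    have he : ∀ i, xt N m i < 10 := by
      intro i
      unfold xt
      split_ifs with h
      · exact mem_range.1 (hD i (hm ⟨i, h⟩))
      · norm_num
    have he0 : xt N m 0 ≠ 0 := by
      unfold xt
      rw [dif_pos hz]
      have h1 := h0 (hm ⟨0, hz⟩)
      simp only [mem_insert, mem_singleton] at h1
      omega
    rw [vv_eq]
    refine ⟨val_lt he, le_val he0, val_pal he he0, fun i hi => ?_⟩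
    rw [val_digit he he0 hi]
    unfold xt
    rw [dif_pos (mem_range.2 (by omega))]
    exact hm ⟨i, _⟩

lemma vv_injOn {N : ℕ} {D : ℕ → Finset ℕ} (hD : ∀ i, D i ⊆ range 10) :
    Set.InjOn (vv N) (cf D (range (N + 1)) : Set (Ix N)) := by
  intro m hm m' hm' h
  exact vB_inj hD (subset_refl _) (mem_coe.1 hm) (mem_coe.1 hm') h

lemma card_PalSet {N : ℕ} {D : ℕ → Finset ℕ} (hD : ∀ i, D i ⊆ range 10) (h0 : D 0 ⊆ {1, 3, 7, 9}) :
    (PalSet N D).card = XX N D := by
  rw [PalSet_eq hD h0, card_image_of_injOn (vv_injOn hD), card_cf]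
  rfl

open Classical in
/-- Let `0 < κ ≤ 1` and `4.1 ≤ (r - 0.182) κ`.  There is `c > 0` such that for all large `N` and all sets `D 0`, …,
`D N` of decimal digits with `D 0 ⊆ {1, 3, 7, 9}`, at most `N / 15` of which have exactly one element: if at least
`10 ^ (κ N)` palindromes with exactly `2 N + 1` digits have their digit in place `i` in `D i` for every `i ≤ N`, and
one of them is prime to `21`, then at least `c / N` times as many of them have at most `r` prime factors, counted with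
multiplicity, each of them larger than `10 ^ (κ N / 13)`. -/
theorem result (r : ℕ) (κ : ℝ) (hκ0 : 0 < κ) (hκ1 : κ ≤ 1) (hr : 41 / 10 ≤ ((r : ℝ) - 182 / 1000) * κ) :
    ∃ c : ℝ, 0 < c ∧ ∀ᶠ N : ℕ in atTop, ∀ D : ℕ → Finset ℕ, (∀ i ≤ N, D i ⊆ range 10) → D 0 ⊆ {1, 3, 7, 9} →
      15 * ((range (N + 1)).filter fun i => (D i).card = 1).card ≤ N →
      (10 : ℝ) ^ (κ * N) ≤ ((PalSet N D).card : ℝ) → (∃ n ∈ PalSet N D, n.Coprime 21) →
      c * ((PalSet N D).card : ℝ) / N ≤ (((PalSet N D).filter fun n : ℕ => n.primeFactorsList.length ≤ r ∧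
        ∀ p ∈ n.primeFactorsList, (10 : ℝ) ^ (κ * N / 13) < p).card : ℝ) := by
  classical
  obtain ⟨c, hc, h⟩ := mainA (r := r) (κ := 4995 / 10000 * κ) (κX := κ) (lam := 8466 / 10000) (by positivity)
    (by linarith) hκ1 (by norm_num) (by norm_num) (by norm_num) (by
      have h1 : 88 / (43 * (4995 / 10000 * κ)) < (r : ℝ) - 182 / 1000 := by
        rw [div_lt_iff₀ (by positivity)]
        linarith
      norm_num at h1 ⊢
      linarith)
  refine ⟨c, hc, ?_⟩
  filter_upwards [h] with N hN D' hD'1 hD'0 hfew hX hcop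
  -- the sets outside of the range of interest are made trivial
  set D : ℕ → Finset ℕ := fun i => D' i ∩ range 10 with hDdef
  have hDeq : ∀ i ≤ N, D i = D' i := fun i hi => inter_eq_left.2 (hD'1 i hi)
  have hP : PalSet N D' = PalSet N D := by
    ext n
    rw [mem_PalSet, mem_PalSet]
    constructor
    · rintro ⟨h1, h2, h3, h4⟩
      exact ⟨h1, h2, h3, fun i hi => by rw [hDeq i hi]; exact h4 i hi⟩
    · rintro ⟨h1, h2, h3, h4⟩
      exact ⟨h1, h2, h3, fun i hi => by rw [← hDeq i hi]; exact h4 i hi⟩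
  rw [hP] at hX hcop ⊢
  have hDsub : ∀ i, D i ⊆ range 10 := fun i => inter_subset_right
  have hD0 : D 0 ⊆ {1, 3, 7, 9} := inter_subset_left.trans hD'0
  obtain ⟨n0, hn0, hn0c⟩ := hcop
  have hPal := PalSet_eq (N := N) hDsub hD0
  have hgood : GoodP N D := by
    refine ⟨hDsub, ?_, ?_⟩
    · intro i hi
      exact ⟨_, (mem_PalSet.1 hn0).2.2.2 i hi⟩
    · refine le_trans ?_ hfew
      apply Nat.mul_le_mul_left
      apply card_le_card
      intro i hi
      rw [mem_filter, mem_Ico] at hi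
      rw [mem_filter, mem_range]
      refine ⟨by omega, ?_⟩
      rw [← hDeq i (by omega)]
      have h1 : 0 < (D i).card := card_pos.2 ⟨_, (mem_PalSet.1 hn0).2.2.2 i (by omega)⟩
      omega
  have hXX : ((PalSet N D).card : ℝ) = (XX N D : ℝ) := by rw [card_PalSet hDsub hD0]
  rw [hXX] at hX ⊢
  have hne : (S21 N D).Nonempty := by
    rw [hPal, mem_image] at hn0
    obtain ⟨m, hm, rfl⟩ := hn0
    exact ⟨m, mem_filter.2 ⟨hm, hn0c⟩⟩
  obtain ⟨G, hG1, hG2, hG3⟩ := hN D hgood hX hD0 hne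
  refine hG2.trans ?_
  have hGcf : G ⊆ cf D (range (N + 1)) := hG1.trans (filter_subset _ _)
  have h1 : (G.image (vv N)).card = G.card :=
    card_image_of_injOn ((vv_injOn hDsub).mono (by exact_mod_cast hGcf))
  rw [← h1]
  have h2 : G.image (vv N) ⊆ (PalSet N D).filter fun n : ℕ => n.primeFactorsList.length ≤ r ∧
        ∀ p ∈ n.primeFactorsList, (10 : ℝ) ^ (κ * N / 13) < p := by
    intro n hn
    rw [mem_image] at hn
    obtain ⟨m, hm, rfl⟩ := hn
    rw [mem_filter, hPal]
    refine ⟨mem_image_of_mem _ (hGcf hm), (hG3 m hm).1, fun p hp => ?_⟩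
    refine lt_of_le_of_lt ?_ ((hG3 m hm).2 p hp)
    apply Real.rpow_le_rpow_of_exponent_le (by norm_num)
    have : (0 : ℝ) ≤ κ * N := by positivity
    linarith
  exact_mod_cast card_le_card h2

end Pool.Agent.Results.MP_540de1_nt.DigitSets
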