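import Mathlib
import Pool.Agent.L5helper11.PE.MainB

/-!
Decimal palindromes with digits prescribed in an arbitrary set of places and with few prime factors.
-/

set_option autoImplicit false

namespace Pool.Agent.Results.MP_540de1_nt.PrescribedDigits

open Finset Filter Topology Pool.Agent.L5helper11.PE
open Pool.Agent.L5helper11.PD (Ix)

open Classical in
/-- Let `0 ≤ θ ≤ 1 / 15` and `2.778 ≤ (r - 0.182) (1 - θ)`.  For all large `N`, for every set `P` of at most `θ N`
of the places `0, …, N` and every choice of decimal digits `d i`, `i ∈ P` (the digit in place `0` being `1`, `3`, `7`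
or `9` if it is prescribed), at least `8 ^ (N - |P|)` of the palindromes `n` with exactly `2 N + 1` decimal digits have
the digit `d i` in place `i` for every `i ∈ P` and have at most `r` prime factors, counted with multiplicity, each of
them larger than `10 ^ (N / 9)`. -/
theorem result (r : ℕ) (θ : ℝ) (hθ0 : 0 ≤ θ) (hθ1 : θ ≤ 1 / 15)
    (hr : 2778 / 1000 ≤ ((r : ℝ) - 182 / 1000) * (1 - θ)) :
    ∀ᶠ N : ℕ in atTop, ∀ (P : Finset ℕ) (d : ℕ → ℕ), P ⊆ range (N + 1) → (P.card : ℝ) ≤ θ * N →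
      (∀ i ∈ P, d i < 10) → (0 ∈ P → d 0 = 1 ∨ d 0 = 3 ∨ d 0 = 7 ∨ d 0 = 9) →
      8 ^ (N - P.card) ≤ ((range (10 ^ (2 * N + 1))).filter (fun n : ℕ => 10 ^ (2 * N) ≤ n ∧
        (Nat.digits 10 n).reverse = Nat.digits 10 n ∧ (∀ i ∈ P, n / 10 ^ i % 10 = d i) ∧
        n.primeFactorsList.length ≤ r ∧
        ∀ p ∈ n.primeFactorsList, (10 : ℝ) ^ ((N : ℝ) / 9) < p)).card := by
  obtain ⟨c, hc, h⟩ := mainB (r := r) (θ := θ) (lam := 8466 / 10000) hθ0 hθ1 (by norm_num) (by norm_num)
    (by norm_num) (by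
      have h0 : 0 < 1 - θ := by linarith
      have h1 : 88 / (43 * (277 / 376 * (1 - θ))) = (33088 / 11911) / (1 - θ) := by
        field_simp
        norm_num
      have h2 : (33088 / 11911 : ℝ) / (1 - θ) < (r : ℝ) - 182 / 1000 := by
        rw [div_lt_iff₀ h0]
        norm_num
        linarith
      rw [h1]
      norm_num
      linarith)
  have hgrow : ∀ᶠ N : ℕ in atTop, (N : ℝ) ^ 4 / (45 / 44 : ℝ) ^ N < c ^ 4 / 64 :=
    (tendsto_pow_const_div_const_pow_of_one_lt 4 (by norm_num : (1 : ℝ) < 45 / 44)).eventually_lt_const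
      (by positivity)
  filter_upwards [h, hgrow, eventually_ge_atTop 4] with N hN hg hN4 P d hP hPc hd hd0
  have hN0 : (0 : ℝ) < N := by exact_mod_cast (show 0 < N by omega)
  have hN4' : (4 : ℝ) ≤ N := by exact_mod_cast hN4
  set F := Ico 1 N \ P with hF
  set e : ℕ → ℕ := fun i => if i ∈ P then d i else if i = 0 then 1 else 0 with he
  have hFsub : F ⊆ Ico 1 N := sdiff_subset
  have hFc : N ≤ F.card + 1 + P.card := by
    have h1 : (Ico 1 N).card - P.card ≤ F.card := le_card_sdiff P (Ico 1 N)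
    rw [Nat.card_Ico] at h1
    omega
  have hFcR : (N : ℝ) ≤ F.card + 1 + P.card := by exact_mod_cast hFc
  have he10 : ∀ i, e i < 10 := by
    intro i
    simp only [he]
    split_ifs with h1
    · exact hd i h1
    · norm_num
    · norm_num
  have he0 : e 0 ∈ ({1, 3, 7, 9} : Finset ℕ) := by
    simp only [he]
    split_ifs with h1
    · have := hd0 h1
      simp only [mem_insert, mem_singleton]
      exact this
    · simp
  obtain ⟨G, hG1, hG2, hG3⟩ := hN F e hFsub (by linarith) he10 he0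
  have hmany := many_values hFsub he10 hG1
  have he00 : e 0 ≠ 0 := by
    simp only [mem_insert, mem_singleton] at he0
    omega
  have hF0 : (0 : ℕ) ∉ F := fun h1 => by
    have := mem_Ico.1 (hFsub h1)
    omega
  -- the values are among the numbers counted
  have hsub : G.image (v2 N) ⊆ (range (10 ^ (2 * N + 1))).filter (fun n : ℕ => 10 ^ (2 * N) ≤ n ∧
        (Nat.digits 10 n).reverse = Nat.digits 10 n ∧ (∀ i ∈ P, n / 10 ^ i % 10 = d i) ∧
        n.primeFactorsList.length ≤ r ∧ ∀ p ∈ n.primeFactorsList, (10 : ℝ) ^ ((N : ℝ) / 9) < p) := by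
    intro n hn
    rw [mem_image] at hn
    obtain ⟨m, hm, rfl⟩ := hn
    have hmS := hG1 hm
    have hlt := e2_free hmS he10
    have h20 : e2 N m 0 ≠ 0 := by
      rw [e2_fixed hmS (Nat.zero_le _) hF0]
      exact he00
    rw [mem_filter, mem_range]
    obtain ⟨g1, g2⟩ := hG3 m hm
    rw [v2_eq] at g1 g2 ⊢
    refine ⟨val_lt hlt, le_val h20, val_pal hlt h20, fun i hi => ?_, g1, fun p hp => ?_⟩
    · have hiN : i ≤ N := by
        have := mem_range.1 (hP hi)
        omega
      rw [val_digit hlt h20 hiN, e2_fixed hmS hiN (fun h1 => (Finset.mem_sdiff.1 h1).2 hi)]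
      simp only [he]
      rw [if_pos hi]
    · refine lt_of_le_of_lt ?_ (g2 p hp)
      apply Real.rpow_le_rpow_of_exponent_le (by norm_num)
      have h1 : (1 : ℝ) / 9 ≤ 277 / 376 * (1 - θ) / 6 := by linarith
      calc (N : ℝ) / 9 = 1 / 9 * N := by ring
        _ ≤ _ := mul_le_mul_of_nonneg_right h1 hN0.le
  refine le_trans ?_ (card_le_card hsub)
  -- the number of values
  set V : ℝ := ((G.image (v2 N)).card : ℝ) with hV
  have hgoal : (8 : ℝ) ^ (N - P.card) ≤ V := by
    set f := F.card with hf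
    have h1 : (8 : ℝ) ^ (N - P.card) ≤ 8 * 8 ^ f := by
      rw [← pow_succ']
      exact pow_le_pow_right₀ (by norm_num) (by omega)
    -- the growth
    set y : ℝ := (45 / 44 : ℝ) ^ f with hy
    have hy0 : 0 < y := by positivity
    have h2 : (45 / 44 : ℝ) ^ N ≤ y ^ 2 := by
      rw [hy, ← pow_mul]
      apply pow_le_pow_right₀ (by norm_num)
      have h3 : (N : ℝ) ≤ f * 2 := by
        have h4 : θ * N ≤ 1 / 15 * N := mul_le_mul_of_nonneg_right hθ1 hN0.le
        linarith
      exact_mod_cast h3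
    have h3 : 8 * (N : ℝ) ^ 2 ≤ c ^ 2 * y := by
      rw [div_lt_iff₀ (by positivity)] at hg
      have h4 : (8 * (N : ℝ) ^ 2) ^ 2 ≤ (c ^ 2 * y) ^ 2 := by
        have h5 : c ^ 4 / 64 * (45 / 44 : ℝ) ^ N ≤ c ^ 4 / 64 * y ^ 2 :=
          mul_le_mul_of_nonneg_left h2 (by positivity)
        calc (8 * (N : ℝ) ^ 2) ^ 2 = 64 * (N : ℝ) ^ 4 := by ring
          _ ≤ 64 * (c ^ 4 / 64 * y ^ 2) := by linarith
          _ = _ := by ring
      exact le_of_pow_le_pow_left₀ (by norm_num) (by positivity) h4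
    have h4 : (c * 30 ^ f / N) ^ 2 ≤ V * 110 ^ f :=
      (pow_le_pow_left₀ (by positivity) hG2 2).trans hmany
    have h5 : (c * 30 ^ f / N) ^ 2 = c ^ 2 * y * 8 ^ f / (N : ℝ) ^ 2 * 110 ^ f := by
      rw [div_pow, mul_pow, ← pow_mul, mul_comm f 2, pow_mul, hy]
      have e1 : ((30 : ℝ) ^ 2) ^ f = (45 / 44 : ℝ) ^ f * 8 ^ f * 110 ^ f := by
        rw [← mul_pow, ← mul_pow]
        norm_num
      rw [e1]
      ring
    rw [h5] at h4
    have h6 : c ^ 2 * y * 8 ^ f / (N : ℝ) ^ 2 ≤ V := le_of_mul_le_mul_right h4 (by positivity)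
    refine h1.trans (le_trans ?_ h6)
    rw [le_div_iff₀ (by positivity)]
    calc 8 * 8 ^ f * (N : ℝ) ^ 2 = (8 * (N : ℝ) ^ 2) * 8 ^ f := by ring
      _ ≤ (c ^ 2 * y) * 8 ^ f := mul_le_mul_of_nonneg_right h3 (by positivity)
      _ = _ := by ring
  rw [hV] at hgoal
  exact_mod_cast hgoal

end Pool.Agent.Results.MP_540de1_nt.PrescribedDigits
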