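import Mathlib
import Pool.Agent.H476R2.Pal.BV2

/-!
# An explicit upper bound for the number of palindromic primes

At most `20/3 + ε` times the expected number `5 * 10 ^ L / (L log 10)` of the decimal palindromes
with exactly `2 L + 1` digits are prime, and at most `75 √x / log x` palindromes up to `x` are prime.

The first part is the upper bound sieve of Selberg with the level of distribution `X ^ (3/5)` of the
`X = 9 * 10 ^ L` palindromes (`MP_540de1_nt.LevelThreeFifths`).
-/

set_option autoImplicit false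

namespace Pool.Agent.Results.MP_540de1_nt.UpperBound

open Finset Filter

/-- the palindromic primes with exactly `2 L + 1` digits -/
noncomputable def cn (L : ℕ) : ℕ := ((range (10 ^ (2 * L + 1))).filter (fun n => 10 ^ (2 * L) ≤ n ∧
  (Nat.digits 10 n).reverse = Nat.digits 10 n ∧ n.Prime)).card

lemma odd_len {n : ℕ} (hp : n.Prime) (hpal : (Nat.digits 10 n).reverse = Nat.digits 10 n)
    (h11 : n ≠ 11) : ∃ l, 10 ^ (2 * l) ≤ n ∧ n < 10 ^ (2 * l + 1) := by
  have hn : n ≠ 0 := hp.ne_zero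
  have hlen : (Nat.digits 10 n).length = Nat.log 10 n + 1 := Nat.length_digits 10 n (by norm_num) hn
  have h1 : 10 ^ (Nat.log 10 n) ≤ n := Nat.pow_log_le_self 10 hn
  have h2 : n < 10 ^ (Nat.log 10 n + 1) := Nat.lt_pow_succ_log_self (by norm_num) n
  rcases Nat.even_or_odd (Nat.log 10 n + 1) with he | ho
  · have h3 : 11 ∣ n := Nat.eleven_dvd_of_palindrome (List.Palindrome.of_reverse_eq hpal)
      (by rw [hlen]; exact he)
    exact absurd ((Nat.prime_dvd_prime_iff_eq (by norm_num) hp).1 h3).symm h11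
  · obtain ⟨l, hl⟩ := ho
    have : Nat.log 10 n = 2 * l := by omega
    exact ⟨l, by rw [← this]; exact h1, by rw [← this]; exact h2⟩

lemma count_le {x L : ℕ} (hx : x < 10 ^ (2 * L + 2)) :
    ((range (x + 1)).filter (fun n => (Nat.digits 10 n).reverse = Nat.digits 10 n ∧ n.Prime)).card ≤
      1 + ∑ l ∈ range (L + 1), cn l := by
  classical
  have hsub : (range (x + 1)).filter (fun n => (Nat.digits 10 n).reverse = Nat.digits 10 n ∧
      n.Prime) ⊆ {11} ∪ (range (L + 1)).biUnion (fun l => (range (10 ^ (2 * l + 1))).filter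
        (fun n => 10 ^ (2 * l) ≤ n ∧ (Nat.digits 10 n).reverse = Nat.digits 10 n ∧ n.Prime)) := by
    intro n hn
    rw [mem_filter, mem_range] at hn
    rw [mem_union, mem_singleton, mem_biUnion]
    by_cases h11 : n = 11
    · exact Or.inl h11
    · right
      obtain ⟨l, hl1, hl2⟩ := odd_len hn.2.2 hn.2.1 h11
      refine ⟨l, ?_, ?_⟩
      · rw [mem_range]
        have h3 : 10 ^ (2 * l) < 10 ^ (2 * L + 2) := lt_of_le_of_lt hl1 (by omega)
        have h4 := (Nat.pow_lt_pow_iff_right (by norm_num : 1 < 10)).1 h3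
        omega
      · rw [mem_filter, mem_range]
        exact ⟨hl2, hl1, hn.2⟩
  refine (card_le_card hsub).trans ((card_union_le _ _).trans ?_)
  rw [card_singleton]
  exact Nat.add_le_add_left card_biUnion_le 1

/-- the sum over the lengths -/
lemma sum_bound (K : ℝ) (hK : 0 ≤ K) (l0 : ℕ) (h0 : 14 ≤ l0) (a : ℕ → ℝ)
    (ha : ∀ l, l0 ≤ l → a l ≤ K * (10 ^ l / l)) :
    ∀ L, l0 ≤ L → ∑ l ∈ range (L + 1), a l ≤ (∑ l ∈ range (l0 + 1), a l) +
      112 / 100 * K * (10 ^ L / L) := by
  intro L hL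
  induction L, hL using Nat.le_induction with
  | base =>
    have : 0 ≤ 112 / 100 * K * ((10 : ℝ) ^ l0 / l0) := by positivity
    linarith
  | succ L hL ih =>
    rw [sum_range_succ]
    have h1 := ha (L + 1) (by omega)
    have hL' : (14 : ℝ) ≤ L := by exact_mod_cast h0.trans hL
    have h2 : 112 / 100 * ((10 : ℝ) ^ L / L) + 10 ^ (L + 1) / ((L + 1 : ℕ) : ℝ) ≤
        112 / 100 * (10 ^ (L + 1) / ((L + 1 : ℕ) : ℝ)) := by
      push_cast
      rw [pow_succ]
      have h3 : (112 / 100 * ((10 : ℝ) ^ L / L)) ≤ 12 / 100 * (10 ^ L * 10 / ((L : ℝ) + 1)) := by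
        rw [mul_div_assoc', mul_div_assoc', div_le_div_iff₀ (by linarith) (by linarith)]
        have : (0 : ℝ) < 10 ^ L := by positivity
        nlinarith
      linarith
    have h4 := mul_le_mul_of_nonneg_left h2 hK
    nlinarith

lemma tail (C : ℝ) : ∀ᶠ x : ℕ in atTop, C ≤ (1 / 1000 : ℝ) * (√(x : ℝ) / Real.log x) := by
  have h1 : Tendsto (fun x : ℝ => √x / Real.log x) atTop atTop := by
    have h2 := isLittleO_log_rpow_atTop (show (0 : ℝ) < 1 / 2 by norm_num)
    have h3 : Tendsto (fun x : ℝ => Real.log x / x ^ (1 / 2 : ℝ)) atTop (nhds 0) := h2.tendsto_div_nhds_zero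
    have h4 : Tendsto (fun x : ℝ => Real.log x / x ^ (1 / 2 : ℝ)) atTop (nhdsWithin 0 (Set.Ioi 0)) := by
      refine tendsto_nhdsWithin_iff.2 ⟨h3, ?_⟩
      filter_upwards [eventually_gt_atTop 1] with x hx
      have : 0 < Real.log x := Real.log_pos hx
      have hx0 : 0 < x := by linarith
      simp only [Set.mem_Ioi]
      positivity
    have h5 := h4.inv_tendsto_nhdsGT_zero
    refine h5.congr fun x => ?_
    simp only [Pi.inv_apply]
    rw [inv_div, Real.sqrt_eq_rpow]
  have h6 := (h1.comp tendsto_natCast_atTop_atTop).eventually_ge_atTop (1000 * C)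
  filter_upwards [h6] with x hx
  simp only [Function.comp_apply] at hx
  linarith

/-- **An explicit upper bound for palindromic primes.**
(1) For every `ε > 0` and all large `L`, at most `(20/3 + ε)` times the expected number
`5 * 10 ^ L / (L log 10)` of the `9 * 10 ^ L` numbers with exactly `2 L + 1` decimal digits whose digit
sequence equals its own reverse are prime.
(2) For all large `x`, at most `75 √x / log x` primes up to `x` are palindromic. -/
theorem result :
    (∀ ε : ℝ, 0 < ε → ∀ᶠ L : ℕ in atTop,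
      (((range (10 ^ (2 * L + 1))).filter (fun n => 10 ^ (2 * L) ≤ n ∧
        (Nat.digits 10 n).reverse = Nat.digits 10 n ∧ n.Prime)).card : ℝ) ≤
        (20 / 3 + ε) * (5 * 10 ^ L / (L * Real.log 10))) ∧
    ∀ᶠ x : ℕ in atTop,
      (((range (x + 1)).filter (fun n => (Nat.digits 10 n).reverse = Nat.digits 10 n ∧
        n.Prime)).card : ℝ) ≤ 75 * √(x : ℝ) / Real.log x := by
  refine ⟨fun ε hε => Pool.Agent.H476R2.Pal.primes_upper2 ε hε, ?_⟩
  obtain ⟨l0, hl0⟩ := eventually_atTop.1
    (Pool.Agent.H476R2.Pal.primes_upper2 (1 / 1000) (by norm_num))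
  set l1 : ℕ := max l0 14 with hl1
  have hlog10 : 0 < Real.log 10 := Real.log_pos (by norm_num)
  set K : ℝ := (20 / 3 + 1 / 1000) * 5 / Real.log 10 with hKdef
  have hK : 0 ≤ K := by positivity
  have hs := sum_bound K hK l1 (le_max_right _ _) (fun l => (cn l : ℝ)) (fun l hl => by
    have h := hl0 l ((le_max_left _ _).trans hl)
    have e : K * ((10 : ℝ) ^ l / l) = (20 / 3 + 1 / 1000) * (5 * 10 ^ l / (l * Real.log 10)) := by
      rw [hKdef]; field_simp
    rw [e]
    exact h)
  set C : ℝ := 1 + ∑ l ∈ range (l1 + 1), (cn l : ℝ) with hCdef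
  filter_upwards [tail C, eventually_ge_atTop (10 ^ (2 * (l1 + 3000))), eventually_ge_atTop 2]
    with x hx1 hx2 hx3
  -- the length of `x`
  set L : ℕ := Nat.log 10 x / 2 with hL
  have hx0 : x ≠ 0 := by rintro rfl; exact absurd hx3 (by norm_num)
  have e1 : 10 ^ (2 * L) ≤ x := by
    refine le_trans (Nat.pow_le_pow_right (by norm_num) ?_) (Nat.pow_log_le_self 10 hx0)
    omega
  have e2 : x < 10 ^ (2 * L + 2) := by
    refine lt_of_lt_of_le (Nat.lt_pow_succ_log_self (by norm_num : 1 < 10) x)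
      (Nat.pow_le_pow_right (by norm_num) ?_)
    omega
  have e3 : l1 + 3000 ≤ L := by
    have h : Nat.log 10 (10 ^ (2 * (l1 + 3000))) ≤ Nat.log 10 x := Nat.log_mono_right hx2
    rw [Nat.log_pow (by norm_num)] at h
    rw [hL, Nat.le_div_iff_mul_le (by norm_num), mul_comm]
    exact h
  have h1 := hs L ((Nat.le_add_right _ _).trans e3)
  have h2 := count_le e2
  have h2' : (((range (x + 1)).filter (fun n => (Nat.digits 10 n).reverse = Nat.digits 10 n ∧
        n.Prime)).card : ℝ) ≤ 1 + ∑ l ∈ range (L + 1), (cn l : ℝ) := by exact_mod_cast h2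
  have hLr : (3000 : ℝ) ≤ L := by
    have : 3000 ≤ L := (Nat.le_add_left _ _).trans e3
    exact_mod_cast this
  have hlogx : 0 < Real.log x := Real.log_pos (by exact_mod_cast (lt_of_lt_of_le one_lt_two hx3))
  have h3 : (10 : ℝ) ^ L ≤ √(x : ℝ) := by
    apply Real.le_sqrt_of_sq_le
    rw [← pow_mul, mul_comm]
    exact_mod_cast e1
  have h4 : Real.log x ≤ (2 * L + 2) * Real.log 10 := by
    have : Real.log x ≤ Real.log ((10 : ℝ) ^ (2 * L + 2)) :=
      Real.log_le_log (by exact_mod_cast Nat.pos_of_ne_zero hx0) (by exact_mod_cast e2.le)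
    rw [Real.log_pow] at this
    push_cast at this
    linarith
  have h5 : 1 / ((L : ℝ) * Real.log 10) ≤ 2001 / 1000 / Real.log x := by
    rw [div_le_div_iff₀ (by positivity) hlogx]
    nlinarith
  have h6 : K * ((10 : ℝ) ^ L / L) ≤ (20 / 3 + 1 / 1000) * 5 * (2001 / 1000) * (√(x : ℝ) / Real.log x) := by
    have e : K * ((10 : ℝ) ^ L / L) = (20 / 3 + 1 / 1000) * 5 * (10 ^ L * (1 / ((L : ℝ) * Real.log 10))) := by
      rw [hKdef]; field_simp
    rw [e]
    have h7 : (10 : ℝ) ^ L * (1 / ((L : ℝ) * Real.log 10)) ≤ √(x : ℝ) * (2001 / 1000 / Real.log x) :=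
      mul_le_mul h3 h5 (by positivity) (Real.sqrt_nonneg _)
    calc (20 / 3 + 1 / 1000) * 5 * ((10 : ℝ) ^ L * (1 / ((L : ℝ) * Real.log 10)))
        ≤ (20 / 3 + 1 / 1000) * 5 * (√(x : ℝ) * (2001 / 1000 / Real.log x)) := by gcongr
      _ = _ := by ring
  have h8 : 0 ≤ √(x : ℝ) / Real.log x := by positivity
  have h9 : 75 * √(x : ℝ) / Real.log x = 75 * (√(x : ℝ) / Real.log x) := by ring
  rw [h9]
  calc _ ≤ 1 + ∑ l ∈ range (L + 1), (cn l : ℝ) := h2'
    _ ≤ C + 112 / 100 * K * (10 ^ L / L) := by rw [hCdef]; linarith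
    _ ≤ 1 / 1000 * (√(x : ℝ) / Real.log x) + 112 / 100 *
        ((20 / 3 + 1 / 1000) * 5 * (2001 / 1000) * (√(x : ℝ) / Real.log x)) := by
        nlinarith
    _ ≤ 75 * (√(x : ℝ) / Real.log x) := by nlinarith

end Pool.Agent.Results.MP_540de1_nt.UpperBound
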